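import Pool.Agent.Y508.J.Mob
import Pool.Agent.Y988.J.FD

/-!
# When are `j(a + b x)` and `j(c + d x)` algebraically dependent?

If `j(p₀ + p₁ x)` and `j(q₀ + q₁ x)` are algebraically dependent over `ℂ` then `q₀ + q₁ x = q (p₀ + p₁ x) + r` with
rational numbers `q > 0` and `r`.
-/

set_option autoImplicit false

open Filter Topology UpperHalfPlane

noncomputable section

namespace Pool.Agent.H43J

open Pool.Agent.TH21.MS (jj jj_an g0 jj_I)
open Pool.Agent.Y988.J (jj_inv Fq qq inv_jj Fq_inj norm_qq bound g0_large)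

/-- the upper half-plane -/
def HH : Set ℂ := {z : ℂ | 0 < z.im}

theorem HH_open : IsOpen HH := isOpen_lt continuous_const Complex.continuous_im

theorem HH_conn : IsPreconnected HH := (convex_halfSpace_im_gt 0).isPreconnected

theorem jj_mob (a b c d : ℤ) (h : a * d - b * c = 1) {z : ℂ} (hz : 0 < z.im) :
    (c : ℂ) * z + d ≠ 0 ∧ 0 < (((a : ℂ) * z + b) / (c * z + d)).im ∧ jj ((a * z + b) / (c * z + d)) = jj z := by
  let γ : Matrix.SpecialLinearGroup (Fin 2) ℤ := ⟨!![a, b; c, d], by rw [Matrix.det_fin_two_of, h]⟩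
  have h1 := Pool.Agent.Y508.J.coe_smul_eq γ ⟨z, hz⟩
  have h2 := jj_inv γ ⟨z, hz⟩
  have h3 := Pool.Agent.Y508.J.den_ne γ ⟨z, hz⟩
  have e1 : ((γ 0 0 : ℤ) : ℂ) = a := rfl
  have e2 : ((γ 0 1 : ℤ) : ℂ) = b := rfl
  have e3 : ((γ 1 0 : ℤ) : ℂ) = c := rfl
  have e4 : ((γ 1 1 : ℤ) : ℂ) = d := rfl
  have e5 : (((⟨z, hz⟩ : ℍ)) : ℂ) = z := rfl
  rw [e1, e2, e3, e4, e5] at h1
  rw [e3, e4, e5] at h3
  rw [h1, e5] at h2
  refine ⟨h3, ?_, h2⟩
  rw [← h1]
  exact (γ • (⟨z, hz⟩ : ℍ)).im_pos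

/-- the set of the values of `j` is infinite -/
theorem inf : (jj '' HH).Infinite := by
  intro hfin
  obtain ⟨B, hB⟩ := hfin.isBounded.exists_norm_le
  obtain ⟨y, hy, hy'⟩ := g0_large (B + 1) 1
  have h1 := hB (jj (Complex.I * y)) ⟨_, by
    show 0 < (Complex.I * (y : ℂ)).im
    simpa using by linarith, rfl⟩
  rw [jj_I, Complex.norm_real, Real.norm_eq_abs] at h1
  linarith [le_abs_self (g0 y)]

theorem jj_const {σ : Type} [Finite σ] {P : MvPolynomial σ ℂ}
    (h : ∀ u : σ → ℂ, (∀ i, 0 < (u i).im) → MvPolynomial.eval (fun i => jj (u i)) P = 0) : P = 0 := by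
  refine MvPolynomial.funext_set (fun _ => jj '' HH) (fun _ => inf) fun x hx => ?_
  choose u hu hux using fun i => hx i (Set.mem_univ i)
  rw [map_zero, ← h u hu]
  congr 2
  funext i
  exact (hux i).symm

theorem an_poly {x : Fin 2 → ℂ → ℂ} {z : ℂ} (hx : ∀ i, AnalyticAt ℂ (x i) z) (P : MvPolynomial (Fin 2) ℂ) :
    AnalyticAt ℂ (fun z => MvPolynomial.eval (fun i => x i z) P) z := by
  have h1 : (fun z => MvPolynomial.eval (fun i => x i z) P) =
      fun z => ∑ m ∈ P.support, P.coeff m * ∏ i, (x i z) ^ m i := by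
    funext z
    rw [MvPolynomial.eval_eq']
  rw [h1]
  exact Finset.analyticAt_fun_sum _ fun m _ => analyticAt_const.mul
    (Finset.analyticAt_fun_prod _ fun i _ => (hx i).pow _)

/-- **A real point on one side is impossible.** -/
theorem stepA {P : MvPolynomial (Fin 2) ℂ} {p₀ p₁ q₀ q₁ : ℂ} (hp : p₁ ≠ 0) (hq : q₁ ≠ 0)
    (h : ∀ x : ℂ, 0 < (p₀ + p₁ * x).im → 0 < (q₀ + q₁ * x).im →
      MvPolynomial.eval ![jj (p₀ + p₁ * x), jj (q₀ + q₁ * x)] P = 0)
    (m : ℤ) (x₀ : ℂ) (hx₀ : 0 < (p₀ + p₁ * x₀).im) (hm : q₀ + q₁ * x₀ = m) : P = 0 := by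
  have key : ∀ s : ℂ, 0 < s.im → ∀ u : ℂ, 0 < u.im → MvPolynomial.eval ![jj u, jj s] P = 0 := by
    intro s hs
    set V : Set ℂ := {x | 0 < (p₀ + p₁ * x).im} with hV
    have hVo : IsOpen V := isOpen_lt continuous_const (Complex.continuous_im.comp (by fun_prop))
    have hVc : IsPreconnected V := by
      refine Convex.isPreconnected ?_
      intro x hx y hy a b ha hb hab
      have e : p₀ + p₁ * (a • x + b • y) = a • (p₀ + p₁ * x) + b • (p₀ + p₁ * y) := by
        have hab' : (a : ℂ) + b = 1 := by exact_mod_cast hab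
        simp only [Complex.real_smul]
        linear_combination (-p₀) * hab'
      have h1 := convex_halfSpace_im_gt 0 (show p₀ + p₁ * x ∈ {c : ℂ | 0 < c.im} from hx)
        (show p₀ + p₁ * y ∈ {c : ℂ | 0 < c.im} from hy) ha hb hab
      show 0 < (p₀ + p₁ * (a • x + b • y)).im
      rw [e]
      exact h1
    have han : AnalyticOnNhd ℂ (fun x => MvPolynomial.eval (fun i => (![fun x => jj (p₀ + p₁ * x),
        fun _ => jj s] : Fin 2 → ℂ → ℂ) i x) P) V := by
      intro x hx
      refine an_poly (fun i => ?_) P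
      fin_cases i
      · show AnalyticAt ℂ (fun x => jj (p₀ + p₁ * x)) x
        exact AnalyticAt.fun_comp (jj_an _ hx) (analyticAt_const.add (analyticAt_const.mul analyticAt_id))
      · exact analyticAt_const
    have hg : ∀ x, MvPolynomial.eval (fun i => (![fun x => jj (p₀ + p₁ * x),
        fun _ => jj s] : Fin 2 → ℂ → ℂ) i x) P = MvPolynomial.eval ![jj (p₀ + p₁ * x), jj s] P := by
      intro x
      congr 2
      funext i
      fin_cases i <;> rfl
    -- the points which tend to `x₀`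
    let xn : ℕ → ℂ := fun n => (m - 1 / (s + n) - q₀) / q₁
    have hsn : ∀ n : ℕ, s + n ≠ 0 := by
      intro n h0
      have := congrArg Complex.im h0
      simp at this
      linarith
    have hlim : Tendsto xn atTop (𝓝 x₀) := by
      have h1 : Tendsto (fun n : ℕ => (1 : ℂ) / (s + n)) atTop (𝓝 0) := by
        have h2 : Tendsto (fun n : ℕ => ‖s + (n : ℂ)‖) atTop atTop := by
          refine tendsto_atTop_mono (f := fun n : ℕ => (n : ℝ) - ‖s‖) (fun n => ?_) ?_
          · have h3 := norm_sub_norm_le (n : ℂ) (-s)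
            rw [norm_neg, Complex.norm_natCast, sub_neg_eq_add, add_comm (n : ℂ)] at h3
            exact h3
          · exact tendsto_atTop_add_const_right _ _ tendsto_natCast_atTop_atTop
        rw [tendsto_zero_iff_norm_tendsto_zero]
        simp only [one_div, norm_inv]
        exact tendsto_inv_atTop_zero.comp h2
      have h3 : Tendsto xn atTop (𝓝 ((m - 0 - q₀) / q₁)) :=
        ((tendsto_const_nhds.sub h1).sub tendsto_const_nhds).div_const _
      have h4 : ((m : ℂ) - 0 - q₀) / q₁ = x₀ := by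
        rw [div_eq_iff hq, ← hm]
        ring
      rwa [h4] at h3
    have hne : ∀ n, xn n ≠ x₀ := by
      intro n h0
      have h1 : q₀ + q₁ * xn n = m - 1 / (s + n) := by
        show q₀ + q₁ * ((m - 1 / (s + n) - q₀) / q₁) = _
        field_simp
        ring
      rw [h0, hm] at h1
      have h2 : (1 : ℂ) / (s + n) = 0 := by linear_combination h1
      exact one_div_ne_zero (hsn n) h2
    have hlim' : Tendsto xn atTop (𝓝[≠] x₀) :=
      tendsto_nhdsWithin_iff.2 ⟨hlim, Eventually.of_forall hne⟩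
    have hev : ∀ᶠ n in atTop, MvPolynomial.eval (fun i => (![fun x => jj (p₀ + p₁ * x),
        fun _ => jj s] : Fin 2 → ℂ → ℂ) i (xn n)) P = 0 := by
      filter_upwards [hlim.eventually (hVo.mem_nhds hx₀)] with n hn
      rw [hg]
      have h1 : q₀ + q₁ * xn n = ((m : ℤ) * s + (m * n - 1 : ℤ)) / ((1 : ℤ) * s + (n : ℤ)) := by
        have h2 : q₀ + q₁ * xn n = m - 1 / (s + n) := by
          show q₀ + q₁ * ((m - 1 / (s + n) - q₀) / q₁) = _
          field_simp
          ring
        rw [h2]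
        have h3 := hsn n
        push_cast
        rw [one_mul, eq_div_iff h3]
        field_simp
        ring
      obtain ⟨-, h4, h5⟩ := jj_mob m (m * n - 1) 1 n (by ring) hs
      have h6 := h (xn n) hn (by rw [h1]; exact h4)
      rw [h1, h5] at h6
      exact h6
    have hz := han.eqOn_zero_of_preconnected_of_frequently_eq_zero hVc hx₀ (hlim'.frequently hev.frequently)
    intro u hu
    have h1 : p₀ + p₁ * ((u - p₀) / p₁) = u := by
      field_simp
      ring
    have h2 : (u - p₀) / p₁ ∈ V := by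
      show 0 < (p₀ + p₁ * ((u - p₀) / p₁)).im
      rw [h1]
      exact hu
    have h3 := hz h2
    simp only [hg, Pi.zero_apply] at h3
    rw [h1] at h3
    exact h3
  refine jj_const fun u hu => ?_
  rw [← key (u 1) (hu 1) (u 0) (hu 0)]
  congr 2
  funext i
  fin_cases i <;> rfl

theorem swapP {P : MvPolynomial (Fin 2) ℂ} (x y : ℂ) :
    MvPolynomial.eval ![y, x] (MvPolynomial.rename (Equiv.swap (0 : Fin 2) 1) P) = MvPolynomial.eval ![x, y] P := by
  rw [MvPolynomial.eval_rename]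
  congr 2
  funext i
  fin_cases i <;> rfl

/-- **The relation is real.** -/
theorem stepB {P : MvPolynomial (Fin 2) ℂ} (hP : P ≠ 0) {p₀ p₁ q₀ q₁ : ℂ} (hp : p₁ ≠ 0) (hq : q₁ ≠ 0)
    (h : ∀ x : ℂ, 0 < (p₀ + p₁ * x).im → 0 < (q₀ + q₁ * x).im →
      MvPolynomial.eval ![jj (p₀ + p₁ * x), jj (q₀ + q₁ * x)] P = 0)
    {x₁ : ℂ} (hx : 0 < (p₀ + p₁ * x₁).im) (hx' : 0 < (q₀ + q₁ * x₁).im) :
    ∃ a b : ℝ, 0 < a ∧ q₁ = a * p₁ ∧ q₀ = a * p₀ + b := by
  have h1 : ∀ (m : ℤ) (x₀ : ℂ), q₀ + q₁ * x₀ = m → (p₀ + p₁ * x₀).im ≤ 0 := by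
    intro m x₀ hm
    by_contra hcon
    exact hP (stepA hp hq h m x₀ (not_le.1 hcon) hm)
  have h2 : ∀ (m : ℤ) (x₀ : ℂ), p₀ + p₁ * x₀ = m → (q₀ + q₁ * x₀).im ≤ 0 := by
    intro m x₀ hm
    by_contra hcon
    have h3 := stepA (P := MvPolynomial.rename (Equiv.swap (0 : Fin 2) 1) P) hq hp (fun x a b => by
      rw [swapP]
      exact h x b a) m x₀ (not_le.1 hcon) hm
    have h4 := MvPolynomial.rename_injective (R := ℂ) _ (Equiv.swap (0 : Fin 2) 1).injective
    exact hP (h4 (h3.trans (map_zero _).symm))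
  set α := q₁ / p₁ with hα
  set β := q₀ - α * p₀ with hβ
  have hαp : α * p₁ = q₁ := div_mul_cancel₀ _ hp
  have hα0 : α ≠ 0 := div_ne_zero hq hp
  have h3 : ∀ m : ℤ, (m : ℝ) * α.im + β.im ≤ 0 := by
    intro m
    have h4 := h2 m ((m - p₀) / p₁) (by field_simp; ring)
    have h5 : q₀ + q₁ * ((m - p₀) / p₁) = m * α + β := by
      rw [hβ, ← hαp]
      field_simp
      ring
    rw [h5] at h4
    simpa using h4
  have hαi : α.im = 0 := by
    by_contra hne
    rcases lt_or_gt_of_ne hne with hlt | hgt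
    · obtain ⟨n', hn'⟩ := exists_nat_gt ((β.im - 1) / α.im)
      have h4 := h3 (-n')
      push_cast at h4
      have h5 : (β.im - 1) / α.im * α.im = β.im - 1 := div_mul_cancel₀ _ hne
      nlinarith
    · obtain ⟨n', hn'⟩ := exists_nat_gt ((-β.im + 1) / α.im)
      have h4 := h3 n'
      push_cast at h4
      have h5 : (-β.im + 1) / α.im * α.im = -β.im + 1 := div_mul_cancel₀ _ hne
      nlinarith
  have hβi : β.im ≤ 0 := by
    have := h3 0
    simpa using this
  have hαr : (α.re : ℂ) = α := Complex.ext (by simp) (by simp [hαi])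
  have hr0 : α.re ≠ 0 := by
    intro h0
    rw [h0] at hαr
    exact hα0 hαr.symm
  have h6 : 0 < α.re := by
    have h7 : q₀ + q₁ * x₁ = α * (p₀ + p₁ * x₁) + β := by
      rw [hβ, ← hαp]
      ring
    rw [h7, ← hαr] at hx'
    rw [Complex.add_im, Complex.im_ofReal_mul] at hx'
    by_contra hcon
    nlinarith [mul_nonneg (sub_nonneg.2 (not_lt.1 hcon)) hx.le]
  have h9 : β.im = 0 := by
    have h10 := h1 0 (-q₀ / q₁) (by
      push_cast
      field_simp
      ring)
    have h11 : p₀ + p₁ * (-q₀ / q₁) = -β / α.re := by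
      rw [hαr, hβ, ← hαp]
      field_simp
      ring
    rw [h11, Complex.div_ofReal_im, Complex.neg_im] at h10
    have h12 : -β.im ≤ 0 := by
      by_contra hcon
      exact absurd h10 (not_le.2 (div_pos (not_le.1 hcon) h6))
    linarith
  refine ⟨α.re, β.re, h6, ?_, ?_⟩
  · rw [hαr, hαp]
  · have hβr : (β.re : ℂ) = β := Complex.ext (by simp) (by simp [h9])
    rw [hαr, hβr, hβ]
    ring

end Pool.Agent.H43J
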