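import Pool.Agent.H43J.Crit

/-!
# When are `j(a + b x)` and `j(c + d x)` algebraically dependent? Second part
-/

set_option autoImplicit false

open Filter Topology UpperHalfPlane

noncomputable section

namespace Pool.Agent.H43J

open Pool.Agent.TH21.MS (jj jj_an g0 jj_I)
open Pool.Agent.Y988.J (jj_inv Fq qq inv_jj Fq_inj norm_qq bound g0_large)

theorem prodz {ι : Type} (S : Finset ι) (g : ι → ℂ → ℂ) (hg : ∀ i, AnalyticOnNhd ℂ (g i) HH)
    (h : ∀ u ∈ HH, ∏ i ∈ S, g i u = 0) : ∃ i ∈ S, ∀ u ∈ HH, g i u = 0 := by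
  classical
  induction S using Finset.induction_on with
  | empty =>
    exfalso
    have h1 := h Complex.I (by show 0 < Complex.I.im; simp)
    simp at h1
  | insert i S hi ih =>
    have h1 : AnalyticOnNhd ℂ (fun u => ∏ i ∈ S, g i u) HH := fun u hu =>
      Finset.analyticAt_fun_prod _ fun i _ => hg i u hu
    have h2 := AnalyticOnNhd.eq_zero_or_eq_zero_of_mul_eq_zero (hg i) h1 (fun u hu => by
      have := h u hu
      rw [Finset.prod_insert hi] at this
      exact this) HH_conn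
    rcases h2 with h2 | h2
    · exact ⟨i, Finset.mem_insert_self _ _, h2⟩
    · obtain ⟨j, hj, hj'⟩ := ih h2
      exact ⟨j, Finset.mem_insert_of_mem hj, hj'⟩

/-- **Invariance under a unipotent element.** -/
theorem stepC {P : MvPolynomial (Fin 2) ℂ} (hP : P ≠ 0) {a b : ℝ} (ha : 0 < a)
    (h : ∀ u : ℂ, 0 < u.im → MvPolynomial.eval ![jj (a * u + b), jj u] P = 0) :
    ∃ k : ℕ, 0 < k ∧ ∀ s : ℂ, 0 < s.im → jj (a * (s / (k * s + 1)) + b) = jj (a * s + b) := by
  classical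
  set p := MvPolynomial.finSuccEquiv ℂ 1 P with hp
  have hp0 : p ≠ 0 := by
    rw [hp]
    exact (map_ne_zero_iff _ (MvPolynomial.finSuccEquiv ℂ 1).injective).2 hP
  set D := p.natDegree with hD
  have hL0 : p.leadingCoeff ≠ 0 := Polynomial.leadingCoeff_ne_zero.2 hp0
  have him : ∀ u : ℂ, 0 < u.im → 0 < ((a : ℂ) * u + b).im := by
    intro u hu
    have : ((a : ℂ) * u + b).im = a * u.im := by simp
    rw [this]
    positivity
  have hmob : ∀ (n : ℤ) (u : ℂ), 0 < u.im → (n : ℂ) * u + 1 ≠ 0 ∧ 0 < (u / (n * u + 1)).im ∧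
      jj (u / (n * u + 1)) = jj u := by
    intro n u hu
    have h1 := jj_mob 1 0 n 1 (by ring) hu
    simpa using h1
  let f : ℕ → ℂ → ℂ := fun n u => jj (a * (u / (n * u + 1)) + b)
  have hf : ∀ n, AnalyticOnNhd ℂ (f n) HH := by
    intro n u hu
    obtain ⟨h1, h2, -⟩ := hmob n u hu
    rw [Int.cast_natCast] at h1 h2
    exact AnalyticAt.fun_comp (jj_an _ (him _ h2)) ((analyticAt_const.mul (analyticAt_id.div
      ((analyticAt_const.mul analyticAt_id).add analyticAt_const) h1)).add analyticAt_const)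
  have hroot : ∀ (n : ℕ) (u : ℂ), 0 < u.im →
      Polynomial.eval (f n u) (p.map (MvPolynomial.eval fun _ : Fin 1 => jj u)) = 0 := by
    intro n u hu
    obtain ⟨-, h2, h3⟩ := hmob n u hu
    rw [Int.cast_natCast] at h2 h3
    have h4 := h _ h2
    rw [h3] at h4
    rw [hp, ← MvPolynomial.eval_eq_eval_mv_eval', ← h4]
    congr 2
    funext i
    fin_cases i <;> rfl
  let S : Finset (Option (ℕ × ℕ)) := insert none
    (((Finset.range (D + 1) ×ˢ Finset.range (D + 1)).filter fun x => x.1 < x.2).image some)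
  let g : Option (ℕ × ℕ) → ℂ → ℂ := fun o => o.elim
    (fun u => MvPolynomial.eval (fun _ : Fin 1 => jj u) p.leadingCoeff) fun x u => f x.1 u - f x.2 u
  have hg : ∀ i, AnalyticOnNhd ℂ (g i) HH := by
    rintro (_ | ⟨n, m⟩)
    · intro u hu
      show AnalyticAt ℂ (fun u => MvPolynomial.eval (fun _ : Fin 1 => jj u) p.leadingCoeff) u
      have h1 : (fun u => MvPolynomial.eval (fun _ : Fin 1 => jj u) p.leadingCoeff) =
          fun z => ∑ m ∈ p.leadingCoeff.support, p.leadingCoeff.coeff m * ∏ i, (jj z) ^ m i := by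
        funext z
        rw [MvPolynomial.eval_eq']
      rw [h1]
      exact Finset.analyticAt_fun_sum _ fun m _ => analyticAt_const.mul
        (Finset.analyticAt_fun_prod _ fun i _ => (jj_an u hu).pow _)
    · exact (hf n).sub (hf m)
  have hz : ∀ u ∈ HH, ∏ i ∈ S, g i u = 0 := by
    intro u hu
    by_cases h1 : MvPolynomial.eval (fun _ : Fin 1 => jj u) p.leadingCoeff = 0
    · exact Finset.prod_eq_zero (Finset.mem_insert_self _ _) h1
    · have h2 : p.map (MvPolynomial.eval fun _ : Fin 1 => jj u) ≠ 0 := by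
        intro h0
        have h3 := congrArg (fun q => Polynomial.coeff q D) h0
        simp only [Polynomial.coeff_map, Polynomial.coeff_zero] at h3
        exact h1 h3
      have h4 : ¬ Function.Injective fun n : Fin (D + 1) => f n u := by
        intro hinj
        refine h2 (Polynomial.eq_zero_of_natDegree_lt_card_of_eval_eq_zero _ hinj
          (fun n => hroot n u hu) ?_)
        rw [Fintype.card_fin]
        exact Nat.lt_succ_of_le Polynomial.natDegree_map_le
      rw [Function.Injective] at h4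
      push Not at h4
      obtain ⟨n, m, hnm, hne⟩ := h4
      rcases lt_or_gt_of_ne hne with hlt | hlt
      · refine Finset.prod_eq_zero (i := some ((n : ℕ), (m : ℕ))) ?_ (sub_eq_zero.2 hnm)
        refine Finset.mem_insert_of_mem (Finset.mem_image_of_mem _ ?_)
        rw [Finset.mem_filter, Finset.mem_product, Finset.mem_range, Finset.mem_range]
        exact ⟨⟨n.2, m.2⟩, hlt⟩
      · refine Finset.prod_eq_zero (i := some ((m : ℕ), (n : ℕ))) ?_ (sub_eq_zero.2 hnm.symm)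
        refine Finset.mem_insert_of_mem (Finset.mem_image_of_mem _ ?_)
        rw [Finset.mem_filter, Finset.mem_product, Finset.mem_range, Finset.mem_range]
        exact ⟨⟨m.2, n.2⟩, hlt⟩
  obtain ⟨i, hi, hi'⟩ := prodz S g hg hz
  rw [Finset.mem_insert] at hi
  rcases hi with rfl | hi
  · exfalso
    apply hL0
    refine jj_const fun u hu => ?_
    rw [← hi' (u 0) (hu 0)]
    show _ = MvPolynomial.eval (fun _ : Fin 1 => jj (u 0)) p.leadingCoeff
    congr 2
    funext i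
    rw [Subsingleton.elim i 0]
  · rw [Finset.mem_image] at hi
    obtain ⟨⟨n, m⟩, hnm, rfl⟩ := hi
    have hlt : n < m := (Finset.mem_filter.1 hnm).2
    obtain ⟨k, rfl⟩ := Nat.exists_eq_add_of_lt hlt
    refine ⟨k + 1, Nat.succ_pos k, fun s hs => ?_⟩
    obtain ⟨h1, h2, -⟩ := hmob (-n) s hs
    obtain ⟨h3, -, -⟩ := hmob ((k + 1 : ℕ) : ℤ) s hs
    push_cast at h1 h2 h3
    have h4 := sub_eq_zero.1 (hi' _ h2)
    have aux : ∀ e : ℂ, e ≠ 0 → e = -(n : ℂ) * s + 1 → s / e / ((n : ℂ) * (s / e) + 1) = s ∧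
        s / e / (((n + k + 1 : ℕ) : ℂ) * (s / e) + 1) = s / (((k + 1 : ℕ) : ℂ) * s + 1) := by
      intro e he hes
      have h6 : (n : ℂ) * (s / e) + 1 = 1 / e := by
        rw [eq_div_iff he, add_mul, mul_assoc, div_mul_cancel₀ _ he, hes]
        ring
      have h7 : ((n + k + 1 : ℕ) : ℂ) * (s / e) + 1 = (((k + 1 : ℕ) : ℂ) * s + 1) / e := by
        rw [eq_div_iff he, add_mul, mul_assoc, div_mul_cancel₀ _ he, hes]
        push_cast
        ring
      have h8 : ∀ X : ℂ, e * (X / e) = X := fun X => by field_simp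
      rw [h6, h7, div_div, div_div, h8, h8, div_one]
      exact ⟨rfl, rfl⟩
    obtain ⟨h5, h7⟩ := aux _ h1 rfl
    simp only [f] at h4
    rw [h5, h7] at h4
    exact h4.symm

/-- arithmetic -/
theorem arith {a b : ℝ} {k : ℕ} (hk : 0 < k) {a' b' c' d' : ℤ} (hdet : a' * d' - b' * c' = 1)
    (e2 : (a + b * k) * c' = a' * k) (e1 : (a + b * k) * d' - b ^ 2 * k * c' = a' * (a - k * b) + b' * k) :
    ∃ q r : ℚ, (q : ℝ) = a ∧ (r : ℝ) = b := by
  have hk0 : (0 : ℝ) < k := by exact_mod_cast hk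
  have hc : (c' : ℝ) ≠ 0 := by
    intro h0
    rw [h0, mul_zero] at e2
    have h1 : (a' : ℝ) = 0 := by
      rcases mul_eq_zero.1 e2.symm with h | h
      · exact h
      · exact absurd h hk0.ne'
    have h2 : a' = 0 := by exact_mod_cast h1
    have h3 : c' = 0 := by exact_mod_cast h0
    rw [h2, h3] at hdet
    simp at hdet
  have hdet' : (a' : ℝ) * d' - b' * c' = 1 := by exact_mod_cast hdet
  set l : ℝ := k / c' with hl
  have hlc : l * c' = k := div_mul_cancel₀ _ hc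
  have h1 : a' * l = a + b * k := by
    rw [hl, ← mul_div_assoc, ← e2, mul_div_cancel_right₀ _ hc]
  have h2 : (a + b * k) * d' - b' * k = l := by
    rw [← h1, ← hlc]
    linear_combination l * hdet'
  have h3 : l ^ 2 = a ^ 2 := by
    linear_combination (-l) * h2 + l * e1 + (b ^ 2 * k) * hlc + (a - k * b) * h1
  have h4 : (l - a) * (l + a) = 0 := by linear_combination h3
  rcases mul_eq_zero.1 h4 with h5 | h5
  · have h6 : l = a := by linarith
    refine ⟨(k : ℚ) / c', ((a' : ℚ) - 1) * ((k : ℚ) / c') / k, ?_, ?_⟩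
    · push_cast
      rw [← h6]
    · push_cast
      rw [← hl, div_eq_iff hk0.ne']
      linear_combination h1 - h6
  · have h6 : l = -a := by linarith
    refine ⟨-((k : ℚ) / c'), ((a' : ℚ) + 1) * ((k : ℚ) / c') / k, ?_, ?_⟩
    · push_cast
      rw [← hl, h6]
      ring
    · push_cast
      rw [← hl, div_eq_iff hk0.ne']
      linear_combination h1 + h6

/-- **The coefficients are rational.** -/
theorem stepD {a b : ℝ} (ha : 0 < a) {k : ℕ} (hk : 0 < k)
    (h : ∀ s : ℂ, 0 < s.im → jj (a * (s / (k * s + 1)) + b) = jj (a * s + b)) :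
    ∃ q r : ℚ, (q : ℝ) = a ∧ (r : ℝ) = b := by
  classical
  obtain ⟨ε, hε, hinj⟩ := Fq_inj
  have hpi := Real.pi_pos
  obtain ⟨Y1, hY1', hYε⟩ : ∃ Y1 : ℝ, 1 ≤ Y1 ∧ Real.exp (-(2 * Real.pi * Y1)) < ε := by
    have h1 : Tendsto (fun Y : ℝ => Real.exp (-(2 * Real.pi * Y))) atTop (𝓝 0) :=
      Real.tendsto_exp_atBot.comp (tendsto_neg_atTop_atBot.comp
        (tendsto_id.const_mul_atTop (by positivity)))
    obtain ⟨y, h2, h3⟩ := ((h1.eventually_lt_const hε).and (eventually_ge_atTop (1 : ℝ))).exists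
    exact ⟨y, h3, h2⟩
  obtain ⟨B, hB⟩ := bound Y1
  obtain ⟨y, hy, hy'⟩ := g0_large (B + 1) (Y1 + 1)
  -- the open set
  set O : Set ℂ := {u | Y1 < u.im ∧ B < ‖jj u‖} with hO
  have hOn : O ∈ 𝓝 (Complex.I * (y : ℂ)) := by
    have him : (Complex.I * (y : ℂ)).im = y := by simp
    have h1 : ∀ᶠ u in 𝓝 (Complex.I * (y : ℂ)), Y1 < u.im :=
      Complex.continuous_im.continuousAt.eventually (lt_mem_nhds (by rw [him]; linarith))
    have h2 : ∀ᶠ u in 𝓝 (Complex.I * (y : ℂ)), B < ‖jj u‖ := by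
      refine (jj_an _ (by rw [him]; linarith)).continuousAt.norm.eventually (lt_mem_nhds ?_)
      show B < ‖jj (Complex.I * (y : ℂ))‖
      rw [jj_I, Complex.norm_real, Real.norm_eq_abs]
      linarith [le_abs_self (g0 y)]
    exact h1.and h2
  let Q : (ℤ × ℤ × ℤ × ℤ) → Polynomial ℂ := fun t =>
    (Polynomial.C ((a : ℂ) + b * k) * Polynomial.X - Polynomial.C ((b : ℂ) ^ 2 * k)) *
      (Polynomial.C (t.2.2.1 : ℂ) * Polynomial.X + Polynomial.C (t.2.2.2 : ℂ)) -
    (Polynomial.C (t.1 : ℂ) * Polynomial.X + Polynomial.C (t.2.1 : ℂ)) *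
      (Polynomial.C (k : ℂ) * Polynomial.X + Polynomial.C ((a : ℂ) - k * b))
  have hQ : ∀ t u, (Q t).eval u = (((a : ℂ) + b * k) * u - (b : ℂ) ^ 2 * k) * (t.2.2.1 * u + t.2.2.2) -
      (t.1 * u + t.2.1) * (k * u + ((a : ℂ) - k * b)) := by
    intro t u
    simp [Q]
  -- points of the open set
  have key : ∀ u ∈ O, ∃ t : ℤ × ℤ × ℤ × ℤ, t.1 * t.2.2.2 - t.2.1 * t.2.2.1 = 1 ∧ (Q t).eval u = 0 := by
    rintro u ⟨hu1, hu2⟩
    have hu0 : 0 < u.im := by linarith
    have ha0 : (a : ℂ) ≠ 0 := by exact_mod_cast ha.ne'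
    have hs : 0 < ((u - b) / a).im := by
      have h1 : ((u - b) / (a : ℂ)).im = u.im / a := by
        rw [Complex.div_ofReal_im]
        simp
      rw [h1]
      positivity
    have h1 := h _ hs
    have h2 : (a : ℂ) * ((u - b) / a) + b = u := by
      field_simp
      ring
    rw [h2] at h1
    obtain ⟨hd, him, -⟩ : (k : ℂ) * ((u - b) / a) + 1 ≠ 0 ∧ 0 < ((u - b) / a / (k * ((u - b) / a) + 1)).im ∧
        True := by
      have h3 := jj_mob 1 0 k 1 (by ring) hs
      simp only [Int.cast_one, one_mul, Int.cast_zero, add_zero, Int.cast_natCast] at h3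
      exact ⟨h3.1, h3.2.1, trivial⟩
    have hden : (k : ℂ) * u + ((a : ℂ) - k * b) ≠ 0 := by
      have h3 : (k : ℂ) * u + ((a : ℂ) - k * b) = a * ((k : ℂ) * ((u - b) / a) + 1) := by
        field_simp
        ring
      rw [h3]
      exact mul_ne_zero ha0 hd
    have hG : (a : ℂ) * ((u - b) / a / (k * ((u - b) / a) + 1)) + b =
        (((a : ℂ) + b * k) * u - (b : ℂ) ^ 2 * k) / (k * u + ((a : ℂ) - k * b)) := by
      have h3 : (k : ℂ) * ((u - b) / a) + 1 = (k * u + ((a : ℂ) - k * b)) / a := by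
        field_simp
        ring
      have h4 : ∀ X : ℂ, X ≠ 0 → (u - b) / (a : ℂ) / (X / a) = (u - b) / X := fun X hX => by field_simp
      rw [h3, h4 _ hden, eq_div_iff hden, add_mul, mul_assoc, div_mul_cancel₀ _ hden]
      ring
    set w : ℂ := (a : ℂ) * ((u - b) / a / (k * ((u - b) / a) + 1)) + b with hw
    have hw0 : 0 < w.im := by
      have h3 : w.im = a * ((u - b) / a / (k * ((u - b) / a) + 1)).im := by
        rw [hw, Complex.add_im, Complex.im_ofReal_mul, Complex.ofReal_im, add_zero]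
      rw [h3]
      positivity
    obtain ⟨γ, hγ⟩ := ModularGroup.exists_smul_mem_fd (⟨w, hw0⟩ : ℍ)
    set v : ℍ := γ • (⟨w, hw0⟩ : ℍ) with hv
    have hjv : jj v = jj u := by
      rw [hv, jj_inv]
      exact h1
    have him2 : 1 / 2 ≤ v.im := by
      have h1 := ModularGroup.three_le_four_mul_im_sq_of_mem_fd hγ
      have h2 := v.im_pos
      nlinarith
    have hre : |v.re| ≤ 1 / 2 := hγ.2
    have hvY : Y1 < v.im := by
      by_contra hcon
      push Not at hcon
      have h1 := hB (v : ℂ) hre him2 hcon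
      rw [hjv] at h1
      linarith
    have hq : qq (v : ℂ) = qq u := by
      apply hinj
      · rw [norm_qq]
        refine lt_of_le_of_lt (Real.exp_le_exp.2 ?_) hYε
        have h2 : (v : ℂ).im = v.im := rfl
        rw [h2]
        nlinarith
      · rw [norm_qq]
        refine lt_of_le_of_lt (Real.exp_le_exp.2 ?_) hYε
        nlinarith
      · rw [← inv_jj, ← inv_jj, hjv]
    unfold qq at hq
    rw [Complex.exp_eq_exp_iff_exists_int] at hq
    obtain ⟨n, hn⟩ := hq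
    have hvn : (v : ℂ) = u + n := by
      have h2 : (2 * (Real.pi : ℂ) * Complex.I) ≠ 0 := by
        simp [Real.pi_ne_zero]
      apply mul_left_cancel₀ h2
      rw [hn]
      ring
    have hwv : (⟨w, hw0⟩ : ℍ) = γ⁻¹ • v := by rw [hv, inv_smul_smul]
    have h4 := Pool.Agent.Y508.J.coe_smul_eq γ⁻¹ v
    rw [← hwv] at h4
    have h5 := Pool.Agent.Y508.J.den_ne γ⁻¹ v
    have h6 : w = ((γ⁻¹ 0 0 : ℤ) * (u + n) + (γ⁻¹ 0 1 : ℤ)) / ((γ⁻¹ 1 0 : ℤ) * (u + n) + (γ⁻¹ 1 1 : ℤ)) := by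
      rw [← hvn]
      exact h4
    rw [hvn] at h5
    have hdet : γ⁻¹ 0 0 * γ⁻¹ 1 1 - γ⁻¹ 0 1 * γ⁻¹ 1 0 = 1 := by
      have := (γ⁻¹).2
      rw [Matrix.det_fin_two] at this
      exact this
    refine ⟨(γ⁻¹ 0 0, γ⁻¹ 0 0 * n + γ⁻¹ 0 1, γ⁻¹ 1 0, γ⁻¹ 1 0 * n + γ⁻¹ 1 1), ?_, ?_⟩
    · show γ⁻¹ 0 0 * (γ⁻¹ 1 0 * n + γ⁻¹ 1 1) - (γ⁻¹ 0 0 * n + γ⁻¹ 0 1) * γ⁻¹ 1 0 = 1
      linear_combination hdet
    · rw [hQ]
      have h7 := hG.symm.trans h6
      rw [div_eq_div_iff hden h5] at h7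
      push_cast
      linear_combination h7
  -- a polynomial which vanishes
  obtain ⟨t, ht, ht0⟩ : ∃ t : ℤ × ℤ × ℤ × ℤ, t.1 * t.2.2.2 - t.2.1 * t.2.2.1 = 1 ∧ Q t = 0 := by
    by_contra hcon
    push Not at hcon
    have hc : (⋃ t ∈ {t : ℤ × ℤ × ℤ × ℤ | t.1 * t.2.2.2 - t.2.1 * t.2.2.1 = 1}, {u : ℂ | (Q t).eval u = 0}).Countable := by
      refine Set.Countable.biUnion (Set.to_countable _) fun t ht => ?_
      refine (Set.Finite.subset (Q t).roots.toFinset.finite_toSet fun u hu => ?_).countable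
      simpa [Polynomial.mem_roots (hcon t ht)] using hu
    obtain ⟨u, hu1, hu2⟩ := (hc.dense_compl ℂ).inter_nhds_nonempty hOn
    obtain ⟨t, ht, ht'⟩ := key u hu2
    exact hu1 (Set.mem_biUnion (x := t) ht ht')
  have c0 := hQ t 0
  have c1 := hQ t 1
  have c2 := hQ t (-1)
  rw [ht0, Polynomial.eval_zero] at c0 c1 c2
  refine arith hk ht ?_ ?_
  · have h1 : ((a : ℂ) + b * k) * t.2.2.1 = t.1 * k := by
      linear_combination c0 - (1 / 2 : ℂ) * c1 - (1 / 2 : ℂ) * c2
    exact_mod_cast h1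
  · have h1 : ((a : ℂ) + b * k) * t.2.2.2 - (b : ℂ) ^ 2 * k * t.2.2.1 = t.1 * ((a : ℂ) - k * b) + t.2.1 * k := by
      linear_combination (-(1 / 2 : ℂ)) * c1 + (1 / 2 : ℂ) * c2
    exact_mod_cast h1

/-- **The criterion.** -/
theorem crit {P : MvPolynomial (Fin 2) ℂ} (hP : P ≠ 0) {p₀ p₁ q₀ q₁ : ℂ} (hp : p₁ ≠ 0) (hq : q₁ ≠ 0)
    (h : ∀ x : ℂ, 0 < (p₀ + p₁ * x).im → 0 < (q₀ + q₁ * x).im →
      MvPolynomial.eval ![jj (p₀ + p₁ * x), jj (q₀ + q₁ * x)] P = 0)
    {x₁ : ℂ} (hx : 0 < (p₀ + p₁ * x₁).im) (hx' : 0 < (q₀ + q₁ * x₁).im) :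
    ∃ q r : ℚ, 0 < q ∧ q₁ = q * p₁ ∧ q₀ = q * p₀ + r := by
  obtain ⟨a, b, ha, h1, h2⟩ := stepB hP hp hq h hx hx'
  have h3 : ∀ u : ℂ, 0 < u.im → MvPolynomial.eval ![jj (a * u + b), jj u]
      (MvPolynomial.rename (Equiv.swap (0 : Fin 2) 1) P) = 0 := by
    intro u hu
    rw [swapP]
    have e1 : p₀ + p₁ * ((u - p₀) / p₁) = u := by
      field_simp
      ring
    have e2 : q₀ + q₁ * ((u - p₀) / p₁) = a * u + b := by
      rw [h1, h2]
      field_simp
      ring
    have h4 := h ((u - p₀) / p₁) (by rw [e1]; exact hu) (by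
      rw [e2]
      have : ((a : ℂ) * u + b).im = a * u.im := by simp
      rw [this]
      positivity)
    rw [e1, e2] at h4
    exact h4
  have hP' : MvPolynomial.rename (Equiv.swap (0 : Fin 2) 1) P ≠ 0 := by
    intro h0
    exact hP ((MvPolynomial.rename_injective (R := ℂ) _ (Equiv.swap (0 : Fin 2) 1).injective)
      (h0.trans (map_zero _).symm))
  obtain ⟨k, hk, h5⟩ := stepC hP' ha h3
  obtain ⟨q, r, hqa, hrb⟩ := stepD ha hk h5
  refine ⟨q, r, ?_, ?_, ?_⟩
  · have : (0 : ℝ) < q := by rw [hqa]; exact ha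
    exact_mod_cast this
  · rw [h1, ← hqa]
    push_cast
    rfl
  · rw [h2, ← hqa, ← hrb]
    push_cast
    rfl

end Pool.Agent.H43J
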